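import Pool.Agent.Helper72.WE.Final

/-!
# MP_c8f8f3_co: a better lower bound for every `k ≥ 2`

For every `k ≥ 2` and every `n ≥ n0(k)`, `q_{C_k}(n) ≥ 4 n / (7 k)`.
-/

set_option autoImplicit false

namespace Pool.Agent.Results.MP_c8f8f3_co.AllK

open Pool.Agent.Helper72.WC

theorem result (k : ℕ) (hk : 2 ≤ k) : ∃ n0 : ℕ, ∀ n ≥ n0,
    4 * (n : ℝ) / (7 * k) ≤ qC k n ∧ qC k n ≤ qD k n := by
  obtain ⟨n0, hn0⟩ := Pool.Agent.Helper72.WE.lower_all hk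
  refine ⟨max n0 2, fun n hn => ⟨hn0 n ((le_max_left _ _).trans hn), ?_⟩⟩
  exact qC_le_qD (by omega) ((le_max_right _ _).trans hn)

end Pool.Agent.Results.MP_c8f8f3_co.AllK
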