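import Pool.Agent.Helper40.WT.FinG
import Pool.Agent.Helper40.WT.GenNum

/-!
# MP_c8f8f3_co: an upper bound for every k, from the potential of the random Client

`g_0(a) = exp(-a)`, `g_j(a) = a (a+j)^{j-1} exp(-(a+j)) / j!`, `P_k(a) = ∑_{j<k} g_j(a)`,
`F_k(a) = ∑_{j<k} (k - j) g_j(a)`. For `k ≥ 1`, `n ≥ 2`: `q_{C_k}(n) ≤ q_{D_k}(n) ≤ n / x` for every
real `x ≥ k` with `3 x² ≤ n (2 F_k(a) - (k + a) (1 - (1 - P_k(a))²))` for all `0 ≤ a ≤ x - k`.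
-/

set_option autoImplicit false

namespace Pool.Agent.Results.MP_c8f8f3_co.BorelPotential

open Pool.Agent.Helper72.WC Pool.Agent.Helper40.WT

theorem result (k n : ℕ) (hk : 1 ≤ k) (hn : 2 ≤ n) :
    qC k n ≤ qD k n ∧
    (∀ x : ℝ, (k : ℝ) ≤ x → (∀ a : ℝ, 0 ≤ a → a ≤ x - k →
        3 * x ^ 2 ≤ n * (2 * F k a - (k + a) * (1 - (1 - P k a) ^ 2))) →
      (qD k n : ℝ) ≤ n / x) ∧
    (43 * k ≤ n → (qD k n : ℝ) ≤ n / (k + 0.3 * √(k : ℝ))) ∧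
    (2000 ≤ n → (qD 1 n : ℝ) ≤ n / 1.45 ∧ (qD 2 n : ℝ) ≤ n / 2.65 ∧
      (qD 3 n : ℝ) ≤ n / 3.8) :=
  ⟨qC_le_qD hk hn, fun _ hkx hx => upper_crit hk hn hkx hx, fun h => upper_sqrt hk h,
    fun h => ⟨upper_one_new h, upper_two_new h, upper_three_new h⟩⟩

end Pool.Agent.Results.MP_c8f8f3_co.BorelPotential
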