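import Pool.Agent.Helper40.WT.GenNum
import Pool.Agent.Helper72.WF.Final

/-!
# MP_c8f8f3_co: the second order term of the threshold bias has the order `√k`

For every `k ≥ 2` and every `n ≥ n0(k)`,
`n / (k + 4 √k) ≤ q_{C_k}(n) ≤ q_{D_k}(n) ≤ n / (k + 0.3 √k)`.
-/

set_option autoImplicit false

namespace Pool.Agent.Results.MP_c8f8f3_co.SecondOrder

open Pool.Agent.Helper72.WC

theorem result (k : ℕ) (hk : 2 ≤ k) : ∃ n0 : ℕ, ∀ n ≥ n0,
    (n : ℝ) / (k + 4 * √(k : ℝ)) ≤ qC k n ∧ qC k n ≤ qD k n ∧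
      (qD k n : ℝ) ≤ n / (k + 0.3 * √(k : ℝ)) := by
  obtain ⟨n0, hn0⟩ := Pool.Agent.Helper72.WF.lower_all4 hk
  refine ⟨max n0 (43 * k), fun n hn => ⟨hn0 n ((le_max_left _ _).trans hn), ?_, ?_⟩⟩
  · have := (le_max_right n0 (43 * k)).trans hn
    exact qC_le_qD (by omega) (by omega)
  · exact Pool.Agent.Helper40.WT.upper_sqrt (by omega) ((le_max_right _ _).trans hn)

end Pool.Agent.Results.MP_c8f8f3_co.SecondOrder
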