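import Pool.Agent.Helper40.WS.Final

/-!
# MP_c8f8f3_co: a lower bound for every k

For every `k ≥ 2` and `ε > 0`, for all large `n`,
`q_{C_k}(n) ≥ n / (x_k + ε)`, where `x_k = (2k - 1 + √((2k-1)² + 4)) / 2 < 2k`
(`x_2 = 3.3027...`, `x_3 = 5.1925...`).
-/

set_option autoImplicit false

namespace Pool.Agent.Results.MP_c8f8f3_co.SmallConnectivity

open Pool.Agent.Helper72.WC

theorem result (k : ℕ) (hk : 2 ≤ k) (ε : ℝ) (hε : 0 < ε) : ∃ n0 : ℕ, ∀ n ≥ n0,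
    (n : ℝ) / ((2 * (k : ℝ) - 1 + √((2 * (k : ℝ) - 1) ^ 2 + 4)) / 2 + ε) ≤ qC k n :=
  Pool.Agent.Helper40.WS.small_final hk hε

end Pool.Agent.Results.MP_c8f8f3_co.SmallConnectivity
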